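import Pool.Agent.H.MP_2870db_co.C

set_option autoImplicit false

namespace Pool.Agent.Results.MP_2870db_co.Yes

open Finset

theorem result (V : Type) [Fintype V] (G : SimpleGraph V) [DecidableRel G.Adj] (q : ℕ)
    (hq : 1 ≤ q) (n : Fin q → ℕ) (hsum : ∑ i, n i = Fintype.card V)
    (hn : ∀ i, n i ≤ Fintype.card V / (G.maxDegree + 1)) :
    ∃ σ : V → Fin q, (∀ v w, G.Adj v w → σ v ≠ σ w) ∧ ∀ i, #{v | σ v = i} = n i := by
  have : Nonempty (Fin q) := ⟨⟨0, hq⟩⟩
  obtain ⟨f, f1, f2⟩ := Pool.Agent.H.MP_2870db_co.main (n := n)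
    (s := Fintype.card V / (G.maxDegree + 1)) _ G univ univ (G.maxDegree + 1) rfl
    (fun v _ => by
      refine Nat.lt_succ_of_le (le_trans (le_of_eq ?_) (G.degree_le_maxDegree v))
      rw [← SimpleGraph.card_neighborFinset_eq_degree]
      congr 1
      ext w
      simp)
    (fun i _ => hn i) hsum (Nat.mul_div_le _ _)
  refine ⟨f, fun v w e => f1.2 v (mem_univ _) w (mem_univ _) e, fun i => ?_⟩
  rw [← f2 i (mem_univ _), Pool.Agent.H.MP_2870db_co.cnt]
  congr

end Pool.Agent.Results.MP_2870db_co.Yes
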